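import Pool.Agent.Y434.SD.Frame

/-!
The frame of rank `k + 3` on `ℝ^(k+3) × ℝ^(c+2)` is bracket generating.
-/

namespace Pool.Agent.Y434.SD

open Set MeasureTheory Filter Topology
open scoped ContDiff
open Pool.Agent.H521R3.Sard
open Pool.Agent.Results.MP_77ffad_gt.NoRegularValue (hframe IsIteratedBracket BracketGenerating)

noncomputable section

variable {k c : ℕ}

theorem app_zero : (Fin.append (0 : Fin 2 → ℝ) (0 : Fin c → ℝ)) = 0 := by
  ext l
  refine Fin.addCases (fun l => ?_) (fun j => ?_) l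
  · simp
  · simp

theorem app_sub (u v : Fin 2 → ℝ) :
    (Fin.append u (0 : Fin c → ℝ)) - Fin.append v 0 = Fin.append (u - v) 0 := by
  ext l
  refine Fin.addCases (fun l => ?_) (fun j => ?_) l
  · simp
  · simp

theorem app_neg (u : Fin 2 → ℝ) :
    -(Fin.append u (0 : Fin c → ℝ)) = Fin.append (-u) 0 := by
  ext l
  refine Fin.addCases (fun l => ?_) (fun j => ?_) l
  · simp
  · simp

/-- inclusion of the first two fibre coordinates -/
def appL (c : ℕ) : (Fin 2 → ℝ) →ₗ[ℝ] (Fin (2 + c) → ℝ) where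
  toFun u := Fin.append u 0
  map_add' u v := by
    ext l
    refine Fin.addCases (fun l => ?_) (fun j => ?_) l
    · simp
    · simp
  map_smul' a v := by
    ext l
    refine Fin.addCases (fun l => ?_) (fun j => ?_) l
    · simp
    · simp

/-- inclusion of the last fibre coordinates -/
def appR (c : ℕ) : (Fin c → ℝ) →ₗ[ℝ] (Fin (2 + c) → ℝ) where
  toFun u := Fin.append 0 u
  map_add' u v := by
    ext l
    refine Fin.addCases (fun l => ?_) (fun j => ?_) l
    · simp
    · simp
  map_smul' a v := by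
    ext l
    refine Fin.addCases (fun l => ?_) (fun j => ?_) l
    · simp
    · simp

theorem fAA (i j : Fin 2) (h : ¬ (i = 0 ∧ j = 0)) (x : Fin (2 + (k + 1)) → ℝ) :
    fderiv ℝ (AA (k := k) (c := c) (Fin.castAdd (k + 1) i)) x
      (Pi.single (Fin.castAdd (k + 1) j) 1) =
      Fin.append (fderiv ℝ (A i) (pr x) (Pi.single j 1)) 0 := by
  by_cases hi : i = 0
  · subst hi
    have hj : j ≠ 0 := fun h2 => h ⟨rfl, h2⟩
    rw [AA_0, fderiv_BB, pr_single]
    congr 1
    funext l
    have h1 : (Pi.single (Fin.castAdd (k + 1) j) (1:ℝ) : Fin (2 + (k + 1)) → ℝ) (ib k) = 0 := by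
      apply Pi.single_eq_of_ne
      intro h2
      have := congrArg Fin.val h2
      simp [ib] at this
      omega
    have h2 : (Pi.single j (1:ℝ) : Fin 2 → ℝ) 0 = 0 := Pi.single_eq_of_ne hj.symm _
    rw [h1, h2]
    simp
  · have hi' : i = 1 := by omega
    subst hi'
    have h1 : (Fin.castAdd (k + 1) (1 : Fin 2)) ≠ Fin.castAdd (k + 1) 0 := fun h2 => by
      have := Fin.castAdd_injective _ _ h2
      exact absurd this (by decide)
    have h2 : A 1 = fun _ => 0 := funext A1
    rw [AA_ne h1, h2]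
    simp [app_zero]

theorem transfer {Y : (Fin 2 → ℝ) × (Fin 2 → ℝ) → (Fin 2 → ℝ) × (Fin 2 → ℝ)}
    (hY : IsIteratedBracket (hframe A) Y) :
    (∃ i, Y = hframe A i) ∨ ∃ C : (Fin 2 → ℝ) → (Fin 2 → ℝ), ContDiff ℝ ∞ C ∧ Y = fa 0 C ∧
      IsIteratedBracket (hframe (AA (k := k) (c := c))) (fa 0 (up C)) := by
  have hsm : ∀ {C : (Fin 2 → ℝ) → (Fin 2 → ℝ)} (_ : ContDiff ℝ ∞ C) (v : Fin 2 → ℝ),
      ContDiff ℝ ∞ fun x => fderiv ℝ C x v := fun hC v =>
    (hC.fderiv_right (m := ∞) (by simp)).clm_apply contDiff_const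
  induction hY with
  | basic i => exact Or.inl ⟨i, rfl⟩
  | @bracket Y Z _ _ ih1 ih2 =>
    right
    rcases ih1 with ⟨i, rfl⟩ | ⟨C, hC, rfl, hC'⟩ <;> rcases ih2 with ⟨j, rfl⟩ | ⟨D, hD, rfl, hD'⟩
    · refine ⟨fun x => fderiv ℝ (A j) x (Pi.single i 1) - fderiv ℝ (A i) x (Pi.single j 1),
        (hsm (contDiff_A j) _).sub (hsm (contDiff_A i) _), ?_, ?_⟩
      · rw [hframe_eq, hframe_eq, bra _ _ (contDiff_A i) (contDiff_A j)]
      · have h1 := IsIteratedBracket.bracket
          (IsIteratedBracket.basic (X := hframe (AA (k := k) (c := c))) (Fin.castAdd (k + 1) i))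
          (IsIteratedBracket.basic (X := hframe (AA (k := k) (c := c))) (Fin.castAdd (k + 1) j))
        rw [hframe_eq, hframe_eq, bra _ _ (contDiff_AA _) (contDiff_AA _)] at h1
        convert h1 using 2
        funext x
        by_cases hij : i = j
        · subst hij
          simp [up, app_zero]
        · rw [fAA j i (fun h => hij (h.2.trans h.1.symm)), fAA i j (fun h => hij (h.1.trans h.2.symm)),
            app_sub]
          rfl
    · refine ⟨fun x => fderiv ℝ D x (Pi.single i 1), hsm hD _, ?_, ?_⟩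
      · rw [hframe_eq, bra _ _ (contDiff_A i) hD]
        simp
      · have h1 := IsIteratedBracket.bracket
          (IsIteratedBracket.basic (X := hframe (AA (k := k) (c := c))) (Fin.castAdd (k + 1) i)) hD'
        rw [hframe_eq, bra _ _ (contDiff_AA _) (contDiff_up hD)] at h1
        convert h1 using 2
        funext x
        rw [fderiv_up hD, pr_single]
        simp [up]
    · refine ⟨fun x => -fderiv ℝ C x (Pi.single j 1), (hsm hC _).neg, ?_, ?_⟩
      · rw [hframe_eq, bra _ _ hC (contDiff_A j)]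
        simp
      · have h1 := IsIteratedBracket.bracket hC'
          (IsIteratedBracket.basic (X := hframe (AA (k := k) (c := c))) (Fin.castAdd (k + 1) j))
        rw [hframe_eq, bra _ _ (contDiff_up hC) (contDiff_AA _)] at h1
        convert h1 using 2
        funext x
        rw [fderiv_up hC, pr_single]
        simp [up, app_neg]
    · refine ⟨fun _ => 0, contDiff_const, ?_, ?_⟩
      · rw [bra _ _ hC hD]
        simp
      · have h1 := IsIteratedBracket.bracket hC' hD'
        rw [bra _ _ (contDiff_up hC) (contDiff_up hD)] at h1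
        convert h1 using 2
        funext x
        simp [up, app_zero]

theorem it_GG (i : ℕ) :
    IsIteratedBracket (hframe (AA (k := k) (c := c))) (fa 0 (GG i)) := by
  induction i with
  | zero =>
    have h1 := IsIteratedBracket.bracket
      (IsIteratedBracket.basic (X := hframe (AA (k := k) (c := c))) (ib k))
      (IsIteratedBracket.basic (X := hframe (AA (k := k) (c := c))) (Fin.castAdd (k + 1) 0))
    rw [hframe_eq, hframe_eq, bra _ _ (contDiff_AA _) (contDiff_AA _)] at h1
    convert h1 using 2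
    funext x
    have h2 : ib k ≠ Fin.castAdd (k + 1) 0 := by
      intro h2
      have := congrArg Fin.val h2
      simp [ib] at this
    rw [AA_0, AA_ne h2, fderiv_BB, pr_single_ib]
    simp [GG]
  | succ i ih =>
    have h1 := IsIteratedBracket.bracket
      (IsIteratedBracket.basic (X := hframe (AA (k := k) (c := c))) (Fin.castAdd (k + 1) 0)) ih
    rw [hframe_eq, bra _ _ (contDiff_AA _) (contDiff_GG i)] at h1
    convert h1 using 2
    funext x
    rw [fderiv_GG]
    simp

theorem tri (S : Submodule ℝ (Fin c → ℝ)) (x : ℝ)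
    (h : ∀ i : ℕ, (fun j : Fin c => ((j:ℕ).descFactorial i : ℝ) * x ^ ((j:ℕ) - i)) ∈ S)
    (y : Fin c → ℝ) : y ∈ S := by
  have key : ∀ n : ℕ, ∀ i : Fin c, c ≤ (i:ℕ) + n → (Pi.single i (1:ℝ) : Fin c → ℝ) ∈ S := by
    intro n
    induction n with
    | zero => intro i hi; have := i.isLt; omega
    | succ n ih =>
      intro i hi
      have h1 := h i
      have h2 : (Pi.single i (1:ℝ) : Fin c → ℝ) = ((i:ℕ).factorial : ℝ)⁻¹ •
          ((fun j : Fin c => ((j:ℕ).descFactorial i : ℝ) * x ^ ((j:ℕ) - (i:ℕ))) -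
            ∑ j ∈ Finset.univ.filter (fun j => i < j),
              (((j:ℕ).descFactorial i : ℝ) * x ^ ((j:ℕ) - (i:ℕ))) • (Pi.single j (1:ℝ) : Fin c → ℝ)) := by
        funext l
        simp only [Pi.smul_apply, Pi.sub_apply, Finset.sum_apply, smul_eq_mul]
        have hf : ((i:ℕ).factorial : ℝ) ≠ 0 := by positivity
        rcases lt_trichotomy l i with hl | hl | hl
        · rw [Finset.sum_eq_zero]
          · rw [Pi.single_eq_of_ne hl.ne, Nat.descFactorial_of_lt hl]
            simp
          · intro j hj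
            rw [Finset.mem_filter] at hj
            rw [Pi.single_eq_of_ne (hl.trans hj.2).ne, mul_zero]
        · subst hl
          rw [Finset.sum_eq_zero]
          · rw [Pi.single_eq_same, Nat.descFactorial_self]
            simp [hf]
          · intro j hj
            rw [Finset.mem_filter] at hj
            rw [Pi.single_eq_of_ne hj.2.ne, mul_zero]
        · rw [Finset.sum_eq_single l]
          · rw [Pi.single_eq_of_ne hl.ne', Pi.single_eq_same]
            ring
          · intro j _ hj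
            rw [Pi.single_eq_of_ne hj.symm, mul_zero]
          · intro hn
            exact absurd (Finset.mem_filter.2 ⟨Finset.mem_univ l, hl⟩) hn
      rw [h2]
      refine S.smul_mem _ (S.sub_mem h1 (S.sum_mem fun j hj => S.smul_mem _ (ih j ?_)))
      rw [Finset.mem_filter] at hj
      have h3 : (i:ℕ) < (j:ℕ) := hj.2
      omega
  have e : y = ∑ i, y i • (Pi.single i (1:ℝ) : Fin c → ℝ) := by
    funext l
    rw [Finset.sum_apply, Finset.sum_eq_single l]
    · simp
    · intro b _ hb
      simp [Pi.single_eq_of_ne hb.symm]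
    · simp
  rw [e]
  exact S.sum_mem fun i _ => S.smul_mem _ (key c i (by omega))

theorem generating : BracketGenerating (hframe (AA (k := k) (c := c))) := by
  intro q
  set S := Submodule.span ℝ {v | ∃ Y, IsIteratedBracket (hframe (AA (k := k) (c := c))) Y ∧
    Y q = v} with hS
  have hmem : ∀ {Y}, IsIteratedBracket (hframe (AA (k := k) (c := c))) Y → Y q ∈ S :=
    fun {Y} hY => Submodule.subset_span ⟨Y, hY, rfl⟩
  -- the first two fibre coordinates
  have hL : ∀ y : Fin 2 → ℝ, ((0 : Fin (2 + (k + 1)) → ℝ), (Fin.append y 0 : Fin (2 + c) → ℝ)) ∈ S := by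
    let S2 : Submodule ℝ (Fin 2 → ℝ) :=
      S.comap ((LinearMap.inr ℝ (Fin (2 + (k + 1)) → ℝ) (Fin (2 + c) → ℝ)).comp (appL c))
    let Ψ : ((Fin 2 → ℝ) × (Fin 2 → ℝ)) →ₗ[ℝ] (Fin 2 → ℝ) :=
      LinearMap.snd ℝ (Fin 2 → ℝ) (Fin 2 → ℝ) -
        (((LinearMap.proj 0 : (Fin 2 → ℝ) →ₗ[ℝ] ℝ).comp
          (LinearMap.fst ℝ (Fin 2 → ℝ) (Fin 2 → ℝ))).smulRight (A 0 (pr q.1)))
    have hΨ : ∀ p, Ψ p = p.2 - p.1 0 • A 0 (pr q.1) := fun p => rfl
    have h1 : (⊤ : Submodule ℝ ((Fin 2 → ℝ) × (Fin 2 → ℝ))) ≤ S2.comap Ψ := by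
      rw [← bracketGenerating (pr q.1, 0)]
      apply Submodule.span_le.2
      rintro v ⟨Y, hY, rfl⟩
      show Ψ (Y (pr q.1, 0)) ∈ S2
      rw [hΨ]
      rcases transfer (k := k) (c := c) hY with ⟨i, rfl⟩ | ⟨C, hC, rfl, hC'⟩
      · have : (hframe A i (pr q.1, 0)).2 - (hframe A i (pr q.1, 0)).1 0 • A 0 (pr q.1) = 0 := by
          fin_cases i
          · simp [hframe]
          · simp [hframe, A1]
        rw [this]
        exact S2.zero_mem
      · have h2 := hmem hC'
        show ((0 : Fin (2 + (k + 1)) → ℝ), Fin.append ((fa 0 C (pr q.1, 0)).2 -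
          (fa 0 C (pr q.1, 0)).1 0 • A 0 (pr q.1)) 0) ∈ S
        have h3 : (fa 0 C ((pr q.1, 0) : (Fin 2 → ℝ) × (Fin 2 → ℝ))).2 -
          (fa 0 C ((pr q.1, 0) : (Fin 2 → ℝ) × (Fin 2 → ℝ))).1 0 • A 0 (pr q.1) = C (pr q.1) := by
          simp [fa]
        rw [h3]
        exact h2
    intro y
    have h2 : ((0 : Fin 2 → ℝ), y) ∈ S2.comap Ψ := h1 trivial
    have h3 : Ψ (0, y) ∈ S2 := h2
    rw [hΨ] at h3
    simp only [Pi.zero_apply, zero_smul, sub_zero] at h3
    exact h3
  have hR : ∀ y : Fin c → ℝ, ((0 : Fin (2 + (k + 1)) → ℝ), (Fin.append 0 y : Fin (2 + c) → ℝ)) ∈ S := by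
    intro y
    let S4 : Submodule ℝ (Fin c → ℝ) :=
      S.comap ((LinearMap.inr ℝ (Fin (2 + (k + 1)) → ℝ) (Fin (2 + c) → ℝ)).comp (appR c))
    have h1 : y ∈ S4 := by
      apply tri S4 (pr q.1 0)
      intro i
      exact hmem (it_GG i)
    exact h1
  have hvert : ∀ w : Fin (2 + c) → ℝ, ((0 : Fin (2 + (k + 1)) → ℝ), w) ∈ S := by
    intro w
    have e : ((0 : Fin (2 + (k + 1)) → ℝ), w) =
        (0, (Fin.append (fun l => w (Fin.castAdd c l)) 0 : Fin (2 + c) → ℝ)) +
        (0, (Fin.append 0 (fun j => w (Fin.natAdd 2 j)) : Fin (2 + c) → ℝ)) := by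
      refine Prod.ext (by simp) (funext fun l => ?_)
      refine Fin.addCases (fun l => ?_) (fun j => ?_) l
      · simp
      · simp
    rw [e]
    exact S.add_mem (hL _) (hR _)
  rw [Submodule.eq_top_iff']
  intro v
  have e : v = (∑ i, v.1 i • hframe (AA (k := k) (c := c)) i q) +
      (0, v.2 - ∑ i, v.1 i • AA (k := k) (c := c) i q.1) := by
    refine Prod.ext (funext fun j => ?_) (funext fun l => ?_)
    · rw [Prod.fst_add, Pi.add_apply, Prod.fst_sum, Finset.sum_apply, Finset.sum_eq_single j]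
      · simp [hframe]
      · intro b _ hb
        simp [hframe, hb.symm]
      · simp
    · rw [Prod.snd_add, Prod.snd_sum]
      simp [hframe]
  rw [e]
  exact S.add_mem (S.sum_mem fun i _ => S.smul_mem _ (hmem (IsIteratedBracket.basic i)))
    (hvert _)

end

end Pool.Agent.Y434.SD
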