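import Pool.Agent.H521R3.SardMain

/-!
The frame of rank `k + 3` on `ℝ^(k+3) × ℝ^(c+2)` and its brackets.
-/

namespace Pool.Agent.Y434.SD

open Set MeasureTheory Filter Topology
open scoped ContDiff
open Pool.Agent.H521R3.Sard
open Pool.Agent.Results.MP_77ffad_gt.NoRegularValue (hframe IsIteratedBracket BracketGenerating)

noncomputable section

/-! ### Generalities -/

/-- the field with constant base part `a` and fibre part `F` -/
def fa {n m : ℕ} (a : Fin n → ℝ) (F : (Fin n → ℝ) → (Fin m → ℝ))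
    (q : (Fin n → ℝ) × (Fin m → ℝ)) : (Fin n → ℝ) × (Fin m → ℝ) := (a, F q.1)

theorem hframe_eq {n m : ℕ} (B : Fin n → (Fin n → ℝ) → (Fin m → ℝ)) (i : Fin n) :
    hframe B i = fa (Pi.single i 1) (B i) := rfl

theorem vert_eq (C : (Fin 2 → ℝ) → (Fin 2 → ℝ)) : vert C = fa 0 C := rfl

theorem fderiv_fa {n m : ℕ} (a : Fin n → ℝ) {F : (Fin n → ℝ) → (Fin m → ℝ)}
    (hF : ContDiff ℝ ∞ F) (q v : (Fin n → ℝ) × (Fin m → ℝ)) :
    fderiv ℝ (fa a F) q v = (0, fderiv ℝ F q.1 v.1) := by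
  have h1 : HasFDerivAt F (fderiv ℝ F q.1) q.1 := (hF.differentiable (by simp) _).hasFDerivAt
  have h2 := (hasFDerivAt_const a q).prodMk (h1.comp q hasFDerivAt_fst)
  have h3 : HasFDerivAt (fa a F) _ q := h2
  rw [h3.fderiv]
  rfl

theorem bra {n m : ℕ} (a b : Fin n → ℝ) {F G : (Fin n → ℝ) → (Fin m → ℝ)}
    (hF : ContDiff ℝ ∞ F) (hG : ContDiff ℝ ∞ G) :
    VectorField.lieBracket ℝ (fa a F) (fa b G) =
      fa 0 (fun x => fderiv ℝ G x a - fderiv ℝ F x b) := by
  funext q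
  rw [VectorField.lieBracket, fderiv_fa b hG, fderiv_fa a hF]
  simp [fa]

theorem dir_eq {a b : ℕ} {C : (Fin a → ℝ) → (Fin b → ℝ)} (hC : ContDiff ℝ ∞ C)
    (z v : Fin a → ℝ) (d : Fin b → ℝ) (h : ∀ l, HasDerivAt (fun s : ℝ => C (z + s • v) l) (d l) 0) :
    fderiv ℝ C z v = d := by
  have h1 : HasDerivAt (fun s : ℝ => C (z + s • v)) (fderiv ℝ C z v) 0 := by
    have hl : HasDerivAt (fun s : ℝ => z + s • v) v 0 := by
      simpa using ((hasDerivAt_id (0:ℝ)).smul_const v).const_add z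
    have hd : HasFDerivAt C (fderiv ℝ C z) (z + (0:ℝ) • v) := by
      simpa using (hC.differentiable (by simp) z).hasFDerivAt
    exact hd.comp_hasDerivAt 0 hl
  exact h1.unique (hasDerivAt_pi.2 h)

/-! ### The frame -/

variable {k c : ℕ}

/-- the first two coordinates -/
def pr (z : Fin (2 + (k + 1)) → ℝ) : Fin 2 → ℝ := fun l => z (Fin.castAdd (k + 1) l)

/-- the coordinate `b` -/
def ib (k : ℕ) : Fin (2 + (k + 1)) := Fin.natAdd 2 0

theorem pr_add (z v : Fin (2 + (k + 1)) → ℝ) (s : ℝ) : pr (z + s • v) = pr z + s • pr v := by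
  ext l
  simp [pr]

theorem pr_single_ib : pr (Pi.single (ib k) (1:ℝ)) = 0 := by
  ext l
  have : Fin.castAdd (k + 1) l ≠ ib k := by
    intro h
    have := congrArg Fin.val h
    simp [ib] at this
    omega
  simp [pr, Pi.single_eq_of_ne this]

theorem pr_single (i : Fin 2) : pr (Pi.single (Fin.castAdd (k + 1) i) (1:ℝ)) = Pi.single i 1 := by
  ext l
  by_cases h : l = i
  · subst h
    simp [pr]
  · have h2 : Fin.castAdd (k + 1) l ≠ Fin.castAdd (k + 1) i := fun h3 =>
      h (Fin.castAdd_injective _ _ h3)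
    simp [pr, Pi.single_eq_of_ne h2, Pi.single_eq_of_ne h]

theorem contDiff_pr : ContDiff ℝ ∞ (pr (k := k)) := by
  rw [contDiff_pi]
  intro l
  exact contDiff_apply ℝ ℝ _

/-- the fibre part of the first field -/
def BB (z : Fin (2 + (k + 1)) → ℝ) : Fin (2 + c) → ℝ :=
  Fin.append (A 0 (pr z)) fun j : Fin c => z (ib k) * pr z 0 ^ (j:ℕ)

/-- the forms -/
def AA (i : Fin (2 + (k + 1))) (z : Fin (2 + (k + 1)) → ℝ) : Fin (2 + c) → ℝ :=
  if i = Fin.castAdd (k + 1) 0 then BB z else 0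

theorem contDiff_app {U : Type*} [NormedAddCommGroup U] [NormedSpace ℝ U]
    {F : U → Fin 2 → ℝ} {G : U → Fin c → ℝ}
    (hF : ContDiff ℝ ∞ F) (hG : ContDiff ℝ ∞ G) :
    ContDiff ℝ ∞ (fun z => (Fin.append (F z) (G z) : Fin (2 + c) → ℝ)) := by
  rw [contDiff_pi] at hF hG ⊢
  intro l
  refine Fin.addCases (fun l => ?_) (fun j => ?_) l
  · simp only [Fin.append_left]
    exact hF l
  · simp only [Fin.append_right]
    exact hG j

theorem contDiff_BB : ContDiff ℝ ∞ (BB (k := k) (c := c)) := by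
  apply contDiff_app ((contDiff_A 0).comp contDiff_pr)
  rw [contDiff_pi]
  intro j
  exact (contDiff_apply ℝ ℝ _).mul (((contDiff_apply ℝ ℝ 0).comp contDiff_pr).pow _)

theorem contDiff_AA (i : Fin (2 + (k + 1))) : ContDiff ℝ ∞ (AA (k := k) (c := c) i) := by
  unfold AA
  split_ifs
  · exact contDiff_BB
  · exact contDiff_const

theorem AA_0 : AA (k := k) (c := c) (Fin.castAdd (k + 1) 0) = BB := by
  funext z
  simp [AA]

theorem AA_ne {i : Fin (2 + (k + 1))} (h : i ≠ Fin.castAdd (k + 1) 0) :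
    AA (k := k) (c := c) i = fun _ => 0 := by
  funext z
  simp [AA, h]

theorem linearIndependent_AA (q : (Fin (2 + (k + 1)) → ℝ) × (Fin (2 + c) → ℝ)) :
    LinearIndependent ℝ (fun i => hframe (AA (k := k) (c := c)) i q) := by
  rw [Fintype.linearIndependent_iff]
  intro g hg i
  have := congrFun (congrArg Prod.fst hg) i
  rw [Prod.fst_sum, Finset.sum_apply, Finset.sum_eq_single i] at this
  · simpa [hframe] using this
  · intro b _ hb
    simp [hframe, hb.symm]
  · simp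

/-- lift of a fibre valued function of the plane -/
def up (C : (Fin 2 → ℝ) → (Fin 2 → ℝ)) (z : Fin (2 + (k + 1)) → ℝ) : Fin (2 + c) → ℝ :=
  Fin.append (C (pr z)) 0

theorem contDiff_up {C : (Fin 2 → ℝ) → (Fin 2 → ℝ)} (hC : ContDiff ℝ ∞ C) :
    ContDiff ℝ ∞ (up (k := k) (c := c) C) :=
  contDiff_app (hC.comp contDiff_pr) contDiff_const

theorem comp_deriv {C : (Fin 2 → ℝ) → (Fin 2 → ℝ)} (hC : ContDiff ℝ ∞ C)
    (z v : Fin (2 + (k + 1)) → ℝ) (l : Fin 2) :
    HasDerivAt (fun s : ℝ => C (pr (z + s • v)) l) (fderiv ℝ C (pr z) (pr v) l) 0 := by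
  have hl : HasDerivAt (fun s : ℝ => pr (z + s • v)) (pr v) 0 := by
    have e : (fun s : ℝ => pr (z + s • v)) = fun s => pr z + s • pr v := by
      funext s
      rw [pr_add]
    rw [e]
    simpa using ((hasDerivAt_id (0:ℝ)).smul_const (pr v)).const_add (pr z)
  have hd : HasFDerivAt C (fderiv ℝ C (pr z)) (pr (z + (0:ℝ) • v)) := by
    simpa using (hC.differentiable (by simp) (pr z)).hasFDerivAt
  exact (hasDerivAt_pi.1 (hd.comp_hasDerivAt 0 hl)) l

theorem fderiv_up {C : (Fin 2 → ℝ) → (Fin 2 → ℝ)} (hC : ContDiff ℝ ∞ C)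
    (z v : Fin (2 + (k + 1)) → ℝ) :
    fderiv ℝ (up (k := k) (c := c) C) z v = Fin.append (fderiv ℝ C (pr z) (pr v)) 0 := by
  apply dir_eq (contDiff_up hC)
  intro l
  refine Fin.addCases (fun l => ?_) (fun j => ?_) l
  · simp only [up, Fin.append_left]
    exact comp_deriv hC z v l
  · simp only [up, Fin.append_right, Pi.zero_apply]
    exact hasDerivAt_const _ _

theorem fderiv_BB (z v : Fin (2 + (k + 1)) → ℝ) :
    fderiv ℝ (BB (k := k) (c := c)) z v = Fin.append (fderiv ℝ (A 0) (pr z) (pr v))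
      (fun j : Fin c => v (ib k) * pr z 0 ^ (j:ℕ) +
        z (ib k) * ((j:ℕ) * pr z 0 ^ ((j:ℕ) - 1) * pr v 0)) := by
  apply dir_eq contDiff_BB
  intro l
  refine Fin.addCases (fun l => ?_) (fun j => ?_) l
  · simp only [BB, Fin.append_left]
    exact comp_deriv (contDiff_A 0) z v l
  · simp only [BB, Fin.append_right]
    have h1 : HasDerivAt (fun s : ℝ => (z + s • v) (ib k)) (v (ib k)) 0 := by
      simpa using ((hasDerivAt_id (0:ℝ)).mul_const (v (ib k))).const_add (z (ib k))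
    have h2 : HasDerivAt (fun s : ℝ => pr (z + s • v) 0) (pr v 0) 0 := by
      have e : (fun s : ℝ => pr (z + s • v) 0) = fun s => pr z 0 + s * pr v 0 := by
        funext s
        rw [pr_add]
        simp
      rw [e]
      simpa using ((hasDerivAt_id (0:ℝ)).mul_const (pr v 0)).const_add (pr z 0)
    have h3 := h1.mul (h2.pow (j:ℕ))
    refine h3.congr_deriv ?_
    simp
  
/-- the derivatives of the powers -/
def GG (i : ℕ) (z : Fin (2 + (k + 1)) → ℝ) : Fin (2 + c) → ℝ :=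
  Fin.append (0 : Fin 2 → ℝ) fun j : Fin c => ((j:ℕ).descFactorial i : ℝ) * pr z 0 ^ ((j:ℕ) - i)

theorem contDiff_GG (i : ℕ) : ContDiff ℝ ∞ (GG (k := k) (c := c) i) := by
  apply contDiff_app contDiff_const
  rw [contDiff_pi]
  intro j
  exact contDiff_const.mul (((contDiff_apply ℝ ℝ 0).comp contDiff_pr).pow _)

theorem fderiv_GG (i : ℕ) (z : Fin (2 + (k + 1)) → ℝ) :
    fderiv ℝ (GG (k := k) (c := c) i) z (Pi.single (Fin.castAdd (k + 1) 0) 1) = GG (i + 1) z := by
  apply dir_eq (contDiff_GG i)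
  intro l
  refine Fin.addCases (fun l => ?_) (fun j => ?_) l
  · simp only [GG, Fin.append_left, Pi.zero_apply]
    exact hasDerivAt_const _ _
  · simp only [GG, Fin.append_right]
    have h2 : HasDerivAt (fun s : ℝ => pr (z + s • Pi.single (Fin.castAdd (k + 1) 0) 1) 0) 1 0 := by
      have e : (fun s : ℝ => pr (z + s • Pi.single (Fin.castAdd (k + 1) 0) 1) 0) =
          fun s => pr z 0 + s := by
        funext s
        rw [pr_add, pr_single]
        simp
      rw [e]
      exact (hasDerivAt_id (0:ℝ)).const_add (pr z 0)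
    have h3 := (h2.pow ((j:ℕ) - i)).const_mul ((j:ℕ).descFactorial i : ℝ)
    refine h3.congr_deriv ?_
    have e1 : pr (z + (0:ℝ) • Pi.single (Fin.castAdd (k + 1) 0) 1) 0 = pr z 0 := by simp
    rw [e1, Nat.descFactorial_succ, Nat.sub_sub]
    push_cast
    ring

end

end Pool.Agent.Y434.SD
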