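import Mathlib

/-! A moment problem with continuous controls. -/

namespace Pool.Agent.Y434.SD

open Set MeasureTheory Filter Topology

noncomputable section

theorem mom {x : ℝ → ℝ} (hx : Continuous x) (h0 : x 0 = 0) (h1 : ∃ t ∈ Icc (0:ℝ) 1, x t ≠ 0)
    (N : ℕ) (d : Fin N → ℝ) :
    ∃ v : ℝ → ℝ, Continuous v ∧ ∀ i : Fin N, ∫ t in (0:ℝ)..1, x t ^ (i:ℕ) * v t = d i := by
  obtain ⟨M, hM⟩ : ∃ M : Matrix (Fin N) (Fin N) ℝ, M = fun i j : Fin N =>
    ∫ t in (0:ℝ)..1, x t ^ (i:ℕ) * x t ^ (j:ℕ) := ⟨_, rfl⟩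
  obtain ⟨q, hq⟩ : ∃ q : (Fin N → ℝ) → ℝ → ℝ, q = fun β t => ∑ j : Fin N, β j * x t ^ (j:ℕ) :=
    ⟨_, rfl⟩
  have hqc : ∀ β, Continuous (q β) := by
    intro β
    rw [hq]
    fun_prop
  have key : ∀ (β : Fin N → ℝ) (i : Fin N), ∫ t in (0:ℝ)..1, x t ^ (i:ℕ) * q β t =
      (M.mulVec β) i := by
    intro β i
    rw [hq, hM]
    simp only [Matrix.mulVec, dotProduct]
    have e : (fun t => x t ^ (i:ℕ) * ∑ j : Fin N, β j * x t ^ (j:ℕ)) =
        fun t => ∑ j : Fin N, (x t ^ (i:ℕ) * x t ^ (j:ℕ)) * β j := by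
      funext t
      rw [Finset.mul_sum]
      exact Finset.sum_congr rfl fun j _ => by ring
    rw [e, intervalIntegral.integral_finsetSum]
    · exact Finset.sum_congr rfl fun j _ => intervalIntegral.integral_mul_const _ _
    · intro j _
      exact Continuous.intervalIntegrable (by fun_prop) _ _
  have hinj : Function.Injective M.mulVecLin := by
    rw [← LinearMap.ker_eq_bot, LinearMap.ker_eq_bot']
    intro β hβ
    have hβ' : M.mulVec β = 0 := hβ
    have hz : ∫ t in (0:ℝ)..1, q β t * q β t = 0 := by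
      have e : (fun t => q β t * q β t) = fun t => ∑ i : Fin N, β i * (x t ^ (i:ℕ) * q β t) := by
        funext t
        conv_lhs => rw [hq]
        simp only
        rw [Finset.sum_mul]
        rw [hq]
        exact Finset.sum_congr rfl fun j _ => by ring
      rw [e, intervalIntegral.integral_finsetSum]
      · refine Finset.sum_eq_zero fun i _ => ?_
        rw [intervalIntegral.integral_const_mul, key, hβ']
        simp
      · intro j _
        have := hqc β
        exact Continuous.intervalIntegrable (by fun_prop) _ _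
    have hroot : ∀ t ∈ Icc (0:ℝ) 1, q β t = 0 := by
      intro t ht
      by_contra hne
      have h2 : 0 < ∫ t in (0:ℝ)..1, q β t * q β t := by
        apply intervalIntegral.integral_pos zero_lt_one
        · exact ((hqc β).mul (hqc β)).continuousOn
        · intro s _
          exact mul_self_nonneg _
        · exact ⟨t, ht, mul_self_pos.2 hne⟩
      exact h2.ne' hz
    obtain ⟨p, hp⟩ : ∃ p : Polynomial ℝ, p = ∑ j : Fin N, Polynomial.C (β j) *
      Polynomial.X ^ (j:ℕ) := ⟨_, rfl⟩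
    have hpe : ∀ t, p.eval (x t) = q β t := by
      intro t
      rw [hp, hq, Polynomial.eval_finset_sum]
      simp
    obtain ⟨t1, ht1, hne⟩ := h1
    have hinf : {y | p.IsRoot y}.Infinite := by
      have h2 : uIcc (x 0) (x t1) ⊆ {y | p.IsRoot y} := by
        intro y hy
        obtain ⟨t, ht, rfl⟩ := intermediate_value_uIcc (f := x) (a := 0) (b := t1)
          hx.continuousOn hy
        rw [uIcc_of_le ht1.1] at ht
        show p.eval (x t) = 0
        rw [hpe]
        exact hroot t ⟨ht.1, ht.2.trans ht1.2⟩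
      refine Set.Infinite.mono h2 ?_
      rw [h0, uIcc]
      apply Set.Icc_infinite
      rcases lt_or_gt_of_ne hne with h | h
      · rw [inf_eq_right.2 h.le, sup_eq_left.2 h.le]; exact h
      · rw [inf_eq_left.2 h.le, sup_eq_right.2 h.le]; exact h
    have hp0 : p = 0 := Polynomial.eq_zero_of_infinite_isRoot p hinf
    funext i
    have h3 : p.coeff (i:ℕ) = β i := by
      rw [hp, Polynomial.finset_sum_coeff, Finset.sum_eq_single i]
      · simp
      · intro j _ hj
        rw [Polynomial.coeff_C_mul, Polynomial.coeff_X_pow, if_neg, mul_zero]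
        intro h
        exact hj (Fin.ext h.symm)
      · simp
    rw [← h3, hp0]
    simp
  have hsurj : Function.Surjective M.mulVecLin := LinearMap.injective_iff_surjective.1 hinj
  obtain ⟨β, hβ⟩ := hsurj d
  refine ⟨q β, hqc β, fun i => ?_⟩
  rw [key]
  exact congrFun hβ i

theorem ctl {x x' : ℝ → ℝ} (hx : ∀ t, HasDerivAt x (x' t) t) (hx' : Continuous x')
    (h0 : x 0 = 0) (h1 : ∃ t ∈ Icc (0:ℝ) 1, x t ≠ 0) (c : ℕ) (B : ℝ) (W : Fin c → ℝ) :
    ∃ b b' : ℝ → ℝ, (∀ t, HasDerivAt b (b' t) t) ∧ Continuous b' ∧ b 0 = 0 ∧ b 1 = B ∧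
      ∀ j : Fin c, ∫ t in (0:ℝ)..1, x' t * (b t * x t ^ (j:ℕ)) = W j := by
  have hxc : Continuous x := continuous_iff_continuousAt.2 fun t => (hx t).continuousAt
  obtain ⟨v, hv, hvi⟩ := mom hxc h0 h1 (c + 1)
    (Fin.cons B fun j : Fin c => x 1 ^ ((j:ℕ) + 1) * B - ((j:ℕ) + 1) * W j)
  have hbd : ∀ t, HasDerivAt (fun t => ∫ s in (0:ℝ)..t, v s) (v t) t := fun t =>
    intervalIntegral.integral_hasDerivAt_right (hv.intervalIntegrable _ _)
      (hv.stronglyMeasurableAtFilter _ _) hv.continuousAt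
  have hb1 : ∫ s in (0:ℝ)..1, v s = B := by
    have := hvi 0
    simpa using this
  refine ⟨fun t => ∫ s in (0:ℝ)..t, v s, v, hbd, hv, by simp, hb1, fun j => ?_⟩
  obtain ⟨b, hb⟩ : ∃ b : ℝ → ℝ, b = fun t => ∫ s in (0:ℝ)..t, v s := ⟨_, rfl⟩
  rw [← hb] at hbd
  have hbc : Continuous b := continuous_iff_continuousAt.2 fun t => (hbd t).continuousAt
  have hd : ∀ t, HasDerivAt (fun t => x t ^ ((j:ℕ) + 1) * b t)
      (((j:ℕ) + 1) * (x' t * (b t * x t ^ (j:ℕ))) + x t ^ ((j:ℕ) + 1) * v t) t := by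
    intro t
    have h2 := ((hx t).pow ((j:ℕ) + 1)).mul (hbd t)
    refine h2.congr_deriv ?_
    simp only [Pi.pow_apply, Nat.add_sub_cancel]
    push_cast
    ring
  have h3 := intervalIntegral.integral_eq_sub_of_hasDerivAt (a := 0) (b := 1) (fun t _ => hd t)
    (Continuous.intervalIntegrable (by fun_prop) _ _)
  rw [intervalIntegral.integral_add (Continuous.intervalIntegrable (by fun_prop) _ _)
    (Continuous.intervalIntegrable (by fun_prop) _ _), intervalIntegral.integral_const_mul] at h3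
  have h4 := hvi j.succ
  simp only [Fin.val_succ, Fin.cons_succ] at h4
  have h5 : b 1 = B := by rw [hb]; exact hb1
  have h6 : b 0 = 0 := by rw [hb]; simp
  rw [h4, h5, h6, mul_zero, sub_zero] at h3
  have h7 : ((j:ℕ):ℝ) + 1 ≠ 0 := by positivity
  have h8 : (((j:ℕ):ℝ) + 1) * (∫ t in (0:ℝ)..1, x' t * (b t * x t ^ (j:ℕ))) =
      (((j:ℕ):ℝ) + 1) * W j := by linarith
  have h9 := mul_left_cancel₀ h7 h8
  rw [← h9, hb]

end

end Pool.Agent.Y434.SD
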