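import Pool.Agent.H521R3.SardMain

/-!
The base path of the singular curves of `Pool.Agent.H521R3.Sard`, with non-constant first
coordinate (adapted from `SardLoops`, `SardMain`).
-/

namespace Pool.Agent.Y434.SD

open Set MeasureTheory Filter Topology
open scoped ContDiff
open Pool.Agent.H521R3.Sard
open Pool.Agent.Results.MP_77ffad_gt.NoRegularValue (hframe IsIteratedBracket BracketGenerating
  T T_smooth T_zero T_one hasDerivAt_T continuous_deriv_T deriv_T_of_nonpos deriv_T_of_one_le
  leb Control IsTrajectory IsCriticalAt IsSingularCurve exists_Lp XX P P_eq ae_Icc_of Phi1 int_congr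
  traj XX_zero isSingularCurve_of traj_unique traj_isTrajectory J Efun one_mem)

noncomputable section

lemma loop_add_ne {w v : Fin 2 → ℝ} (hw : IsLoop w) (hv : IsLoop v) (hw0 : w ≠ 0) :
    ∃ x x' : ℝ → Fin 2 → ℝ, (∀ t, HasDerivAt x (x' t) t) ∧ Continuous x' ∧
    (∀ t, t ≤ 0 → x t = 0) ∧ (∀ t, 1 ≤ t → x t = 0) ∧ (∀ t, hh (x t) = 0) ∧
    (∀ l, ∫ t in (0:ℝ)..1, x' t 0 * A 0 (x t) l = (w + v) l) ∧ ∃ t, x t 0 ≠ 0 := by
  obtain ⟨x, x', hx, hx', hx0, hx1, hxh, hxw⟩ := hw
  obtain ⟨y, y', hy, hy', hy0, hy1, hyh, hyv⟩ := hv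
  have dx : ∀ t : ℝ, HasDerivAt (fun t => x (2 * t)) ((2:ℝ) • x' (2 * t)) t := by
    intro t
    have h1 : HasDerivAt (fun t : ℝ => 2 * t) 2 t := by
      simpa using (hasDerivAt_id t).const_mul (2:ℝ)
    exact (hx (2 * t)).scomp t h1
  have dy : ∀ t : ℝ, HasDerivAt (fun t => y (2 * t - 1)) ((2:ℝ) • y' (2 * t - 1)) t := by
    intro t
    have h1 : HasDerivAt (fun t : ℝ => 2 * t - 1) 2 t := by
      simpa using ((hasDerivAt_id t).const_mul (2:ℝ)).sub_const 1
    exact (hy (2 * t - 1)).scomp t h1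
  have xc : Continuous x := continuous_iff_continuousAt.2 fun t => (hx t).continuousAt
  have yc : Continuous y := continuous_iff_continuousAt.2 fun t => (hy t).continuousAt
  have c1 : Continuous fun t : ℝ => 2 * t := by fun_prop
  have c2 : Continuous fun t : ℝ => 2 * t - 1 := by fun_prop
  refine ⟨fun t => x (2 * t) + y (2 * t - 1),
    fun t => (2:ℝ) • x' (2 * t) + (2:ℝ) • y' (2 * t - 1), fun t => (dx t).add (dy t), ?_, ?_, ?_,
    ?_, ?_, ?_⟩
  · exact ((hx'.comp c1).const_smul (2:ℝ)).add ((hy'.comp c2).const_smul (2:ℝ))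
  · intro t ht
    simp only
    rw [hx0 _ (by linarith), hy0 _ (by linarith), add_zero]
  · intro t ht
    simp only
    rw [hx1 _ (by linarith), hy1 _ (by linarith), add_zero]
  · intro t
    simp only
    rcases le_total t (1 / 2) with ht | ht
    · rw [hy0 _ (by linarith), add_zero]; exact hxh _
    · rw [hx1 _ (by linarith), zero_add]; exact hyh _
  · intro l
    have hcont : Continuous fun t : ℝ => ((2:ℝ) • x' (2 * t) + (2:ℝ) • y' (2 * t - 1)) 0 *
        A 0 (x (2 * t) + y (2 * t - 1)) l :=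
      ((continuous_apply 0).comp
        (((hx'.comp c1).const_smul (2:ℝ)).add ((hy'.comp c2).const_smul (2:ℝ)))).mul
        ((continuous_A0 l).comp ((xc.comp c1).add (yc.comp c2)))
    have h1 : ∫ t in (0:ℝ)..(1/2), ((2:ℝ) • x' (2 * t) + (2:ℝ) • y' (2 * t - 1)) 0 *
        A 0 (x (2 * t) + y (2 * t - 1)) l = w l := by
      have e : ∫ t in (0:ℝ)..(1/2), ((2:ℝ) • x' (2 * t) + (2:ℝ) • y' (2 * t - 1)) 0 *
        A 0 (x (2 * t) + y (2 * t - 1)) l =
          ∫ t in (0:ℝ)..(1/2), 2 * ((fun s => x' s 0 * A 0 (x s) l) (2 * t)) := by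
        apply intervalIntegral.integral_congr
        intro t ht
        rw [uIcc_of_le (by norm_num)] at ht
        simp only
        rw [hy0 _ (by linarith [ht.2]), deriv_zero_left hy hy' hy0 (by linarith [ht.2])]
        simp
        ring
      rw [e, intervalIntegral.integral_const_mul, intervalIntegral.integral_comp_mul_left
        (fun s => x' s 0 * A 0 (x s) l) (by norm_num : (2:ℝ) ≠ 0)]
      norm_num
      have := hxw l
      linarith
    have h2 : ∫ t in (1/2:ℝ)..1, ((2:ℝ) • x' (2 * t) + (2:ℝ) • y' (2 * t - 1)) 0 *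
        A 0 (x (2 * t) + y (2 * t - 1)) l = v l := by
      have e : ∫ t in (1/2:ℝ)..1, ((2:ℝ) • x' (2 * t) + (2:ℝ) • y' (2 * t - 1)) 0 *
        A 0 (x (2 * t) + y (2 * t - 1)) l =
          ∫ t in (1/2:ℝ)..1, 2 * ((fun s => y' s 0 * A 0 (y s) l) (2 * t - 1)) := by
        apply intervalIntegral.integral_congr
        intro t ht
        rw [uIcc_of_le (by norm_num)] at ht
        simp only
        rw [hx1 _ (by linarith [ht.1]), deriv_zero_right hx hx' hx1 (by linarith [ht.1])]
        simp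
        ring
      rw [e, intervalIntegral.integral_const_mul, intervalIntegral.integral_comp_mul_sub
        (fun s => y' s 0 * A 0 (y s) l) (by norm_num : (2:ℝ) ≠ 0)]
      norm_num
      have := hyv l
      linarith
    rw [← intervalIntegral.integral_add_adjacent_intervals (hcont.intervalIntegrable _ _)
      (hcont.intervalIntegrable _ _) (b := 1 / 2), h1, h2]
    rfl
  · by_contra hcon
    push Not at hcon
    have z : ∀ s, x s 0 = 0 := by
      intro s
      rcases le_total s 1 with hs | hs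
      · have h1 := hcon (s / 2)
        have h2 : y (2 * (s / 2) - 1) = 0 := hy0 _ (by linarith)
        have h3 : 2 * (s / 2) = s := by ring
        simp only [Pi.add_apply] at h1
        rw [h2, h3] at h1
        simpa using h1
      · rw [hx1 s hs]
        rfl
    have z' : ∀ s, x' s 0 = 0 := by
      intro s
      have h1 : HasDerivAt (fun t => x t 0) (x' s 0) s := (hasDerivAt_pi.1 (hx s)) 0
      have h2 : (fun t => x t 0) = fun _ => (0 : ℝ) := funext z
      rw [h2] at h1
      exact h1.unique (hasDerivAt_const s _)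
    apply hw0
    funext l
    rw [← hxw l]
    simp [z']

lemma loopN (w : Fin 2 → ℝ) :
    ∃ x x' : ℝ → Fin 2 → ℝ, (∀ t, HasDerivAt x (x' t) t) ∧ Continuous x' ∧
    (∀ t, t ≤ 0 → x t = 0) ∧ (∀ t, 1 ≤ t → x t = 0) ∧ (∀ t, hh (x t) = 0) ∧
    (∀ l, ∫ t in (0:ℝ)..1, x' t 0 * A 0 (x t) l = w l) ∧ ∃ t, x t 0 ≠ 0 := by
  have h := loop_add_ne (loop_all ![1, 0]) (loop_all (w - ![1, 0])) (by
    intro h
    have := congrFun h 0
    simp at this)
  rw [add_sub_cancel] at h
  exact h

/-- the base path -/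
theorem base_path (X Z : Fin 2 → ℝ) : ∃ (lam : Fin 2 → ℝ) (x x' : ℝ → Fin 2 → ℝ), lam ≠ 0 ∧
    (∀ t, HasDerivAt x (x' t) t) ∧ Continuous x' ∧ x 0 = 0 ∧ x 1 = X ∧
    (∀ t, ∑ l, lam l * hh (x t) l = 0) ∧
    (∀ l, ∫ s in (0:ℝ)..1, x' s 0 * A 0 (x s) l = Z l) ∧ ∃ t ∈ Icc (0:ℝ) 1, x t 0 ≠ 0 := by
  obtain ⟨lam, hlam, hlamX⟩ := exists_covector X
  obtain ⟨y, y', hy, hy', hy0, hy1, hyh, hyw, t0, ht0⟩ := loopN (fun l => Z l - ray X l)
  have yc : Continuous y := continuous_iff_continuousAt.2 fun t => (hy t).continuousAt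
  have c1 : Continuous fun t : ℝ => 2 * t := by fun_prop
  have c2 : Continuous fun t : ℝ => 2 * t - 1 := by fun_prop
  have dy : ∀ t : ℝ, HasDerivAt (fun t => y (2 * t)) ((2:ℝ) • y' (2 * t)) t := by
    intro t
    have h1 : HasDerivAt (fun t : ℝ => 2 * t) 2 t := by
      simpa using (hasDerivAt_id t).const_mul (2:ℝ)
    exact (hy (2 * t)).scomp t h1
  let x : ℝ → Fin 2 → ℝ := fun t => y (2 * t) + T (2 * t - 1) • X
  let x' : ℝ → Fin 2 → ℝ := fun t => (2:ℝ) • y' (2 * t) + (deriv T (2 * t - 1) * 2) • X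
  have hx : ∀ t, HasDerivAt x (x' t) t := fun t => (dy t).add ((T21_deriv t).smul_const X)
  have cdT : Continuous fun t : ℝ => deriv T (2 * t - 1) * 2 :=
    (continuous_deriv_T.comp c2).mul continuous_const
  have hx' : Continuous x' := ((hy'.comp c1).const_smul (2:ℝ)).add (cdT.smul continuous_const)
  have hxc : Continuous x := continuous_iff_continuousAt.2 fun t => (hx t).continuousAt
  have xl : ∀ t, t ≤ 1 / 2 → x t = y (2 * t) := by
    intro t ht
    show y (2 * t) + T (2 * t - 1) • X = _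
    rw [T_zero (by linarith), zero_smul, add_zero]
  have xr : ∀ t, 1 / 2 ≤ t → x t = T (2 * t - 1) • X := by
    intro t ht
    show y (2 * t) + T (2 * t - 1) • X = _
    rw [hy1 _ (by linarith), zero_add]
  have hx0 : x 0 = 0 := by rw [xl 0 (by norm_num), hy0 _ (by norm_num)]
  have hx1 : x 1 = X := by
    rw [xr 1 (by norm_num), T_one (by norm_num), one_smul]
  have hcurv : ∀ t, ∑ l, lam l * hh (x t) l = 0 := by
    intro t
    rcases le_total t (1 / 2) with ht | ht
    · rw [xl t ht, hyh]; simp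
    · rw [xr t ht, hh_eq]
      have : ∀ l, lam l * (DD (T (2 * t - 1) • X) • T (2 * t - 1) • X) l =
          DD (T (2 * t - 1) • X) * T (2 * t - 1) * (lam l * X l) := by
        intro l
        simp
        ring
      simp only [this]
      rw [← Finset.mul_sum, hlamX, mul_zero]
  refine ⟨lam, x, x', hlam, hx, hx', hx0, hx1, hcurv, ?_, ?_⟩
  · intro l
    have hcont : Continuous fun s => x' s 0 * A 0 (x s) l :=
      ((continuous_apply 0).comp hx').mul ((continuous_A0 l).comp hxc)
    rw [← intervalIntegral.integral_add_adjacent_intervals (hcont.intervalIntegrable _ _)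
      (hcont.intervalIntegrable _ _) (b := 1 / 2)]
    have e1 : ∫ t in (0:ℝ)..(1/2), x' t 0 * A 0 (x t) l =
        ∫ t in (0:ℝ)..(1/2), 2 * ((fun s => y' s 0 * A 0 (y s) l) (2 * t)) := by
      apply intervalIntegral.integral_congr
      intro t ht
      rw [uIcc_of_le (by norm_num)] at ht
      simp only
      rw [xl t ht.2]
      have : x' t 0 = 2 * y' (2 * t) 0 := by
        show ((2:ℝ) • y' (2 * t) + (deriv T (2 * t - 1) * 2) • X) 0 = _
        rw [deriv_T_of_nonpos (by linarith [ht.2])]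
        simp
      rw [this]
      ring
    have e2 : ∫ t in (1/2:ℝ)..1, x' t 0 * A 0 (x t) l =
        ∫ t in (1/2:ℝ)..1, 2 * ((fun s => deriv T s * X 0 * A 0 (T s • X) l) (2 * t - 1)) := by
      apply intervalIntegral.integral_congr
      intro t ht
      rw [uIcc_of_le (by norm_num)] at ht
      simp only
      rw [xr t ht.1]
      have : x' t 0 = 2 * (deriv T (2 * t - 1) * X 0) := by
        show ((2:ℝ) • y' (2 * t) + (deriv T (2 * t - 1) * 2) • X) 0 = _
        rw [deriv_zero_right hy hy' hy1 (by linarith [ht.1])]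
        simp
        ring
      rw [this]
      ring
    rw [e1, e2, intervalIntegral.integral_const_mul, intervalIntegral.integral_comp_mul_left
      (fun s => y' s 0 * A 0 (y s) l) (by norm_num : (2:ℝ) ≠ 0),
      intervalIntegral.integral_const_mul, intervalIntegral.integral_comp_mul_sub
      (fun s => deriv T s * X 0 * A 0 (T s • X) l) (by norm_num : (2:ℝ) ≠ 0)]
    have hw := hyw l
    norm_num
    unfold ray at hw
    linarith

  · have h1 : 0 ≤ t0 := by
      by_contra h
      apply ht0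
      rw [hy0 t0 (by linarith)]
      rfl
    have h2 : t0 ≤ 1 := by
      by_contra h
      apply ht0
      rw [hy1 t0 (by linarith)]
      rfl
    refine ⟨t0 / 2, ⟨by linarith, by linarith⟩, ?_⟩
    rw [xl _ (by linarith)]
    have h3 : 2 * (t0 / 2) = t0 := by ring
    rw [h3]
    exact ht0

end

end Pool.Agent.Y434.SD
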