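import Pool.Agent.Y434.SD.Brk
import Pool.Agent.Y434.SD.Path
import Pool.Agent.Y434.SD.Mom

/-!
Every point of `ℝ^(k+3) × ℝ^(c+2)` is the endpoint of a singular curve starting at the origin.
-/

namespace Pool.Agent.Y434.SD

open Set MeasureTheory Filter Topology
open scoped ContDiff
open Pool.Agent.H521R3.Sard
open Pool.Agent.Results.MP_77ffad_gt.NoRegularValue (hframe IsIteratedBracket BracketGenerating
  leb Control IsTrajectory IsCriticalAt IsSingularCurve exists_Lp XX P P_eq ae_Icc_of Phi1 int_congr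
  traj XX_zero isSingularCurve_of traj_unique traj_isTrajectory J Efun one_mem)

noncomputable section

variable {k c : ℕ}

/-- the projection as a continuous linear map -/
def prL (k : ℕ) : (Fin (2 + (k + 1)) → ℝ) →L[ℝ] (Fin 2 → ℝ) :=
  ContinuousLinearMap.pi fun l => ContinuousLinearMap.proj (Fin.castAdd (k + 1) l)

theorem prL_apply (z : Fin (2 + (k + 1)) → ℝ) : prL k z = pr z := rfl

theorem sum_lam (lam : Fin 2 → ℝ) (z : Fin (2 + (k + 1)) → ℝ) :
    ∑ l, (Fin.append lam (0 : Fin c → ℝ) : Fin (2 + c) → ℝ) l *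
      AA (k := k) (c := c) (Fin.castAdd (k + 1) 0) z l = ∑ l, lam l * A 0 (pr z) l := by
  rw [AA_0, Fin.sum_univ_add]
  simp [BB]

theorem curv_cond' (lam : Fin 2 → ℝ) (z : Fin (2 + (k + 1)) → ℝ)
    (h : ∑ l, lam l * hh (pr z) l = 0) (u v : Fin (2 + (k + 1)) → ℝ) :
    ∑ i, u i * fderiv ℝ (fun z => ∑ l, (Fin.append lam (0 : Fin c → ℝ) : Fin (2 + c) → ℝ) l *
        AA (k := k) (c := c) i z l) z v =
      ∑ i, v i * fderiv ℝ (fun z => ∑ l, (Fin.append lam (0 : Fin c → ℝ) : Fin (2 + c) → ℝ) l *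
        AA (k := k) (c := c) i z l) z u := by
  have h0 : ∀ i, i ≠ Fin.castAdd (k + 1) 0 → ∀ w,
      fderiv ℝ (fun z => ∑ l, (Fin.append lam (0 : Fin c → ℝ) : Fin (2 + c) → ℝ) l *
        AA (k := k) (c := c) i z l) z w = 0 := by
    intro i hi w
    have : (fun z => ∑ l, (Fin.append lam (0 : Fin c → ℝ) : Fin (2 + c) → ℝ) l *
        AA (k := k) (c := c) i z l) = fun _ => 0 := by
      funext z
      simp [AA_ne hi]
    rw [this]
    simp
  obtain ⟨g, hg⟩ : ∃ g : (Fin 2 → ℝ) → ℝ, g = fun z => ∑ l, lam l * A 0 z l := ⟨_, rfl⟩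
  have hgd : Differentiable ℝ g := by
    rw [hg]
    have h1 : ∀ l : Fin 2, ContDiff ℝ 1 fun z => A 0 z l := fun l =>
      ((contDiff_pi.1 (contDiff_A 0)) l).of_le (by simp)
    exact (ContDiff.sum fun l _ => contDiff_const.mul (h1 l)).differentiable (by simp)
  have h1 : ∀ w, fderiv ℝ (fun z => ∑ l, (Fin.append lam (0 : Fin c → ℝ) : Fin (2 + c) → ℝ) l *
        AA (k := k) (c := c) (Fin.castAdd (k + 1) 0) z l) z w = fderiv ℝ g (pr z) (pr w) := by
    intro w
    have e : (fun z => ∑ l, (Fin.append lam (0 : Fin c → ℝ) : Fin (2 + c) → ℝ) l *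
        AA (k := k) (c := c) (Fin.castAdd (k + 1) 0) z l) = fun z => g (prL k z) := by
      funext z
      rw [sum_lam, hg]
      rfl
    rw [e]
    have h2 : HasFDerivAt g (fderiv ℝ g (prL k z)) (prL k z) := (hgd _).hasFDerivAt
    have h3 := h2.comp z (prL k).hasFDerivAt
    have h4 : HasFDerivAt (fun z => g (prL k z)) _ z := h3
    rw [h4.fderiv]
    rfl
  rw [Finset.sum_eq_single (Fin.castAdd (k + 1) 0) (fun i _ hi => by rw [h0 i hi, mul_zero])
    (by simp), Finset.sum_eq_single (Fin.castAdd (k + 1) 0)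
    (fun i _ hi => by rw [h0 i hi, mul_zero]) (by simp), h1, h1]
  have h2 := curv_cond lam (pr z) h (pr u) (pr v)
  have hA1 : (fun z : Fin 2 → ℝ => ∑ l, lam l * A 1 z l) = fun _ => 0 := by
    funext z
    simp [A1]
  rw [Fin.sum_univ_two, Fin.sum_univ_two, hA1, ← hg] at h2
  have h3 : pr u 0 * fderiv ℝ g (pr z) (pr v) = pr v 0 * fderiv ℝ g (pr z) (pr u) := by
    simpa using h2
  exact h3

theorem all_singular (q : (Fin (2 + (k + 1)) → ℝ) × (Fin (2 + c) → ℝ)) :
    ∃ γ, IsSingularCurve (hframe (AA (k := k) (c := c))) γ ∧ γ 0 = 0 ∧ γ 1 = q := by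
  obtain ⟨X, Z⟩ := q
  obtain ⟨lam, x, x', hlam, hx, hx', hx0, hx1, hcurv, hhol, hne⟩ :=
    base_path (pr X) (fun l => Z (Fin.castAdd c l))
  have hx'i : ∀ i, Continuous fun t => x' t i := fun i => (continuous_apply i).comp hx'
  obtain ⟨b, b', hb, hb', hb0, hb1, hbW⟩ := ctl (x := fun t => x t 0) (x' := fun t => x' t 0)
    (fun t => (hasDerivAt_pi.1 (hx t)) 0) (hx'i 0) (by rw [hx0]; rfl) hne c (X (ib k))
    (fun j => Z (Fin.natAdd 2 j))
  let y : ℝ → Fin (2 + (k + 1)) → ℝ := fun t =>
    Fin.append (x t) (Fin.cons (b t) (fun i : Fin k => t * X (Fin.natAdd 2 i.succ)))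
  let y' : ℝ → Fin (2 + (k + 1)) → ℝ := fun t =>
    Fin.append (x' t) (Fin.cons (b' t) (fun i : Fin k => X (Fin.natAdd 2 i.succ)))
  have hy : ∀ t, HasDerivAt y (y' t) t := by
    intro t
    rw [hasDerivAt_pi]
    intro i
    refine Fin.addCases (fun l => ?_) (fun j => ?_) i
    · simp only [y, y', Fin.append_left]
      exact (hasDerivAt_pi.1 (hx t)) l
    · simp only [y, y', Fin.append_right]
      refine Fin.cases ?_ (fun j => ?_) j
      · simp only [Fin.cons_zero]
        exact hb t
      · simp only [Fin.cons_succ]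
        simpa using (hasDerivAt_id t).mul_const (X (Fin.natAdd 2 j.succ))
  have hy'i : ∀ i, Continuous fun t => y' t i := by
    intro i
    refine Fin.addCases (fun l => ?_) (fun j => ?_) i
    · simp only [y', Fin.append_left]
      exact hx'i l
    · simp only [y', Fin.append_right]
      refine Fin.cases ?_ (fun j => ?_) j
      · simp only [Fin.cons_zero]
        exact hb'
      · simp only [Fin.cons_succ]
        exact continuous_const
  have hy' : Continuous y' := continuous_pi hy'i
  have hyp : ∀ t, pr (y t) = x t := by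
    intro t
    ext l
    simp [pr, y]
  have hyb : ∀ t, y t (ib k) = b t := by
    intro t
    simp [ib, y]
  have hy0' : ∀ t, y' t (Fin.castAdd (k + 1) 0) = x' t 0 := by
    intro t
    simp [y']
  have hy0 : y 0 = 0 := by
    ext i
    refine Fin.addCases (fun l => ?_) (fun j => ?_) i
    · simp [y, hx0]
    · refine Fin.cases ?_ (fun j => ?_) j
      · simp [y, hb0]
      · simp [y]
  have hy1 : y 1 = X := by
    ext i
    refine Fin.addCases (fun l => ?_) (fun j => ?_) i
    · simp [y, hx1, pr]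
    · refine Fin.cases ?_ (fun j => ?_) j
      · simp [y, hb1, ib]
      · simp [y]
  have hlam' : (Fin.append lam (0 : Fin c → ℝ) : Fin (2 + c) → ℝ) ≠ 0 := by
    intro h
    apply hlam
    ext l
    have := congrFun h (Fin.castAdd c l)
    simpa using this
  choose u hu using fun i : Fin (2 + (k + 1)) => exists_Lp (hy'i i)
  have hXX : ∀ t ∈ Icc (0:ℝ) 1, XX u t = y t := by
    intro t ht
    ext j
    have h1 : XX u t j = ∫ s in (0:ℝ)..t, y' s j := by
      show P (u j) t = _
      rw [P_eq _ ht, intervalIntegral.integral_of_le ht.1, ← integral_Icc_eq_integral_Ioc]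
      exact integral_congr_ae (ae_Icc_of (hu j) ht)
    rw [h1, intervalIntegral.integral_eq_sub_of_hasDerivAt (f := fun t => y t j)
      (fun s _ => (hasDerivAt_pi.1 (hy s)) j)
      ((hy'i j).intervalIntegrable _ _), hy0, Pi.zero_apply, sub_zero]
  have hPhi : ∀ (i : Fin (2 + (k + 1))) (g : (Fin (2 + (k + 1)) → ℝ) → ℝ), Phi1 i g u =
      ∫ s in (0:ℝ)..1, y' s i * g (y s) := by
    intro i g
    apply int_congr
    filter_upwards [hu i, ae_restrict_mem measurableSet_Icc] with s h1 hs
    rw [h1, hXX s hs]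
  refine ⟨traj AA u, ?_, ?_, ?_⟩
  · exact isSingularCurve_of contDiff_AA _ hlam' hy0 hy hy' u hu
      fun t _ v => curv_cond' lam (y t) (by rw [hyp]; exact hcurv t) (y' t) v
  · refine Prod.ext (XX_zero u) (funext fun l => ?_)
    simp [traj]
  · rw [traj_unique contDiff_AA u _ (traj_isTrajectory contDiff_AA u)]
    refine Prod.ext (funext fun i => ?_) (funext fun l => ?_)
    · show J (u i) = X i
      have h1 : J (u i) = XX u 1 i := rfl
      rw [h1, hXX 1 one_mem, hy1]
    · show ∑ i, Phi1 i (fun x => AA i x l) u = Z l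
      rw [Finset.sum_eq_single (Fin.castAdd (k + 1) 0)]
      · rw [hPhi, AA_0]
        refine Fin.addCases (fun l => ?_) (fun j => ?_) l
        · have e : (fun s => y' s (Fin.castAdd (k + 1) 0) * (BB (y s) : Fin (2 + c) → ℝ)
              (Fin.castAdd c l)) = fun s => x' s 0 * A 0 (x s) l := by
            funext s
            rw [hy0', BB, Fin.append_left, hyp]
          rw [e]
          exact hhol l
        · have e : (fun s => y' s (Fin.castAdd (k + 1) 0) * (BB (y s) : Fin (2 + c) → ℝ)
              (Fin.natAdd 2 j)) = fun s => x' s 0 * (b s * x s 0 ^ (j:ℕ)) := by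
            funext s
            rw [hy0', BB, Fin.append_right, hyp, hyb]
          rw [e]
          exact hbW j
      · intro i _ hi
        rw [hPhi, AA_ne hi]
        simp
      · simp

end

end Pool.Agent.Y434.SD
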